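import Pool.Agent.Helper9.TW.Defs
import Pool.Agent.Helper48.QD.Sf

/-!
# Links with many crossings in each twist region: definitions for the proof
-/

namespace Pool.Agent.Helper9.TW

open Finset Complex
open Pool.Agent.Helper9.Kashaev Pool.Agent.Helper9.FA
open Pool.Agent.Helper9.TG (twM e0)
open Pool.Agent.Helper9.TF (gm DN gamy gamt)
open Pool.Agent.Helper9.TB (Ly dLy pt)

/-! ### the weights of twist regions -/

/-- the coefficient number `m` of `a` half twists -/
noncomputable def twc (N : ℕ) (a : ℤ) (m : ℕ) : ℂ :=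
  if h : m < N then (twM N a).mulVec (e0 N) ⟨m, h⟩ else 0

/-- the same for a vertical or a horizontal twist region -/
noncomputable def tw (N : ℕ) (l : Bool × ℤ) (m : ℕ) : ℂ :=
  if l.1 = true then twc N l.2 m else twc N l.2 (N - 1 - m)

/-- the weight of a vertex -/
noncomputable def kt (N : ℕ) (l : Bool × ℤ) : Ker ℂ := fun n uL uR uB uT =>
  tw N l (N - 1 - n) * (Wt N (N - 1 - n) uL uR uB uT : ℝ)

/-- the integrand of a twist region, any sign of `a` -/
noncomputable def omz (N : ℕ) (a : ℤ) (y : ℂ) : ℂ :=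
  Complex.exp (Real.pi * I * (a * N) * y ^ 2) * dLy y / DN N y

/-- the height of the contour -/
noncomputable def hg (a : ℤ) : ℝ := 1 / (a : ℝ) ^ 2

/-- the near part of the integral -/
noncomputable def nr (N : ℕ) (a : ℤ) (δ : ℝ) (n : ℕ) : ℂ :=
  ∫ s in (-δ)..δ, omz N a (pt s (hg a)) * gm N n (pt s (hg a))

/-! ### parameters of angle assignments -/

section Par

variable {K : Type} [Ring K] {α : Type}

/-- the number of parameters: one for each maximum and three for each vertex -/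
def np : List (Item α) → ℕ
  | [] => 0
  | .cup _ :: P => np P
  | .cap _ :: P => np P + 1
  | .box _ _ :: P => np P + 3

/-- below a minimum -/
def mrg : ℕ → List K → List K
  | 0, a :: _ :: b :: r => (a + b) :: r
  | k + 1, x :: w => x :: mrg k w
  | _, w => w

/-- below a maximum -/
def spl (p i : K) : ℕ → List K → List K
  | 0, x :: r => (x + i) :: 0 :: (p - i) :: r
  | k + 1, x :: w => x :: spl p i k w
  | _, w => w

/-- below a vertex -/
def bxf (uL uR : K) : ℕ → List K → List K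
  | 0, x :: t :: y :: r => (x + uL) :: (t - uL - uR) :: (y + uR) :: r
  | k + 1, x :: w => x :: bxf uL uR k w
  | _, w => w

/-- the flow at the bottom -/
def flow (p : K) : List (Item α) → List K → List K
  | [], _ => [0, 0]
  | .cup k :: P, z => mrg k (flow p P z)
  | .cap k :: P, i :: z => spl p i k (flow p P z)
  | .box k _ :: P, _ :: uL :: uR :: z => bxf uL uR k (flow p P z)
  | .cap _ :: _, [] => []
  | .box _ _ :: _, _ => []

/-- the angles -/
def cors (p : K) : List (Item α) → List K → List (Cor K)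
  | [], _ => []
  | .cup _ :: P, z => cors p P z
  | .cap _ :: P, _ :: z => cors p P z
  | .box k _ :: P, n :: uL :: uR :: z =>
      ⟨n, uL, uR, (flow p P z).getD (k + 1) 0 - uL - uR, p - (flow p P z).getD (k + 1) 0⟩ ::
        cors p P z
  | .cap _ :: _, [] => []
  | .box _ _ :: _, _ => []

/-- the conditions of a well-formed angle assignment without inequalities -/
def ValE (p : K) : List (Item α) → List K → Prop
  | [], z => z = []
  | .cup k :: P, z => ValE p P z ∧ k + 2 < (flow p P z).length ∧ (flow p P z).getD (k + 1) 0 = p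
  | .cap k :: P, _ :: z => ValE p P z ∧ k < (flow p P z).length
  | .box k _ :: P, _ :: _ :: _ :: z => ValE p P z ∧ k + 2 < (flow p P z).length
  | .cap _ :: _, [] => False
  | .box _ _ :: _, _ => False

/-- the linear equations of the angle assignments -/
def FE (p : K) (P : List (Item α)) (z : List K) : Prop := ValE p P z ∧ flow p P z = [0, 0]

/-- the zero angles -/
def c00 : Cor K := ⟨0, 0, 0, 0, 0⟩

/-- the angles at the vertex number `v` -/
def cf (p : K) (P : List (Item α)) (z : List K) (v : ℕ) : Cor K := (cors p P z).getD v c00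

end Par

/-- apply a function to the entries -/
def mapC {K L : Type} (f : K → L) (c : Cor K) : Cor L := ⟨f c.n, f c.uL, f c.uR, f c.uB, f c.uT⟩

/-- the sum -/
def addC {K : Type} [Add K] (c d : Cor K) : Cor K :=
  ⟨c.n + d.n, c.uL + d.uL, c.uR + d.uR, c.uB + d.uB, c.uT + d.uT⟩

section Val

variable {K : Type} [Ring K] [LinearOrder K] {α : Type}

/-- the conditions at a vertex -/
structure OkP (p : K) (c : Cor K) : Prop where
  L0 : 0 ≤ c.uL
  R0 : 0 ≤ c.uR
  B0 : 0 ≤ c.uB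
  T0 : 0 ≤ c.uT
  Bn : c.uB ≤ c.n
  Tn : c.uT ≤ c.n
  Ln : c.uL + c.n ≤ p
  Rn : c.uR + c.n ≤ p

/-- valid parameters -/
def Val (p : K) : List (Item α) → List K → Prop
  | [], z => z = []
  | .cup k :: P, z => Val p P z ∧ k + 2 < (flow p P z).length ∧ (flow p P z).getD (k + 1) 0 = p
  | .cap k :: P, i :: z => Val p P z ∧ k < (flow p P z).length ∧ 0 ≤ i ∧
      (flow p P z).getD k 0 + i ≤ p
  | .box k _ :: P, n :: uL :: uR :: z => Val p P z ∧ k + 2 < (flow p P z).length ∧
      OkP p (⟨n, uL, uR, (flow p P z).getD (k + 1) 0 - uL - uR,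
        p - (flow p P z).getD (k + 1) 0⟩ : Cor K)
  | .cap _ :: _, [] => False
  | .box _ _ :: _, _ => False

/-- valid parameters with flow `[0, 0]` at the bottom -/
def FX (p : K) (P : List (Item α)) (z : List K) : Prop := Val p P z ∧ flow p P z = [0, 0]

end Val

/-- the polytope of the parameters, in units of `π` -/
def QX {α : Type} (P : List (Item α)) : Set (Fin (np P) → ℝ) := {x | FX (1 : ℝ) P (List.ofFn x)}

open Classical in
/-- the integral points -/
noncomputable def ZP {α : Type} (p : ℕ) (P : List (Item α)) : Finset (Fin (np P) → ℤ) :=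
  (Fintype.piFinset fun _ => Finset.Icc (0 : ℤ) p).filter fun z => FX (p : ℤ) P (List.ofFn z)

/-- angles as natural numbers -/
def toN (c : Cor ℤ) : Cor ℕ := ⟨c.n.toNat, c.uL.toNat, c.uR.toNat, c.uB.toNat, c.uT.toNat⟩

/-- the angles of a point of the polytope, in radians -/
noncomputable def cr {α : Type} (P : List (Item α)) (x : Fin (np P) → ℝ) : List (Cor ℝ) :=
  cors Real.pi P (List.ofFn fun i => Real.pi * x i)

/-- all vertices are on the right side -/
def RightC (bs : List Bool) (cs : List (Cor ℝ)) : Prop :=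
  List.Forall₂ (fun (b : Bool) (c : Cor ℝ) =>
    if b = true then 2 * c.n ≤ Real.pi else Real.pi ≤ 2 * c.n) bs cs

/-- a nondegenerate maximum of the volume for the directions `bs` -/
structure GM {α : Type} (P : List (Item α)) (bs : List Bool) (x0 : Fin (np P) → ℝ) : Prop where
  mem : x0 ∈ QX P
  dir : List.Forall₂ (fun (b : Bool) (c : Cor ℝ) =>
    if b = true then 0 < c.n ∧ 2 * c.n < Real.pi else Real.pi < 2 * c.n ∧ c.n < Real.pi)
    bs (cr P x0)
  ri : ∀ x ∈ QX P, ∃ ε : ℝ, 0 < ε ∧ x0 + ε • (x0 - x) ∈ QX P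
  loc : ∀ x ∈ QX P, RightC bs (cr P x) → volX (cr P x) ≤ volX (cr P x0)

/-- the maximum dominates the angle assignments on the wrong side -/
structure DomP {α : Type} (P : List (Item α)) (bs : List Bool) (x0 : Fin (np P) → ℝ) : Prop where
  max : ∀ x ∈ QX P, vabs bs (cr P x) ≤ volX (cr P x0)
  uniq : ∀ x ∈ QX P, vabs bs (cr P x) = volX (cr P x0) → cr P x = cr P x0

/-- a basis of the lattice of differences of integral points; `box` is about the integral points near
`x0` -/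
structure Lat {α : Type} (P : List (Item α)) (x0 : Fin (np P) → ℝ) (D : ℕ)
    (b : Fin D → Fin (np P) → ℤ) : Prop where
  li : LinearIndependent ℝ (fun i => (fun j => (b i j : ℝ)))
  dir : ∀ i, ∃ ε : ℝ, 0 < ε ∧ ∀ s : ℝ, |s| ≤ ε → (fun j => x0 j + s * b i j) ∈ QX P
  diff : ∀ (z z' : Fin (np P) → ℤ) (p : ℝ), 0 < p → (fun i => (z i : ℝ) / p) ∈ QX P →
    (fun i => (z' i : ℝ) / p) ∈ QX P → ∃ k : Fin D → ℤ, ∀ j, z' j = z j + ∑ i, k i * b i j
  span : ∀ x ∈ QX P, ∃ r : Fin D → ℝ, ∀ j, x j - x0 j = ∑ i, r i * b i j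
  box : ∀ C : ℝ, ∃ δ0 : ℝ, 0 < δ0 ∧ ∀ δ : ℝ, 0 < δ → δ ≤ δ0 → ∃ (δ' : ℝ) (p0 : ℕ), 0 < δ' ∧
    ∀ p : ℕ, p0 ≤ p → ∀ z0 : Fin (np P) → ℤ, (fun i => (z0 i : ℝ) / p) ∈ QX P →
      (∀ i, |(z0 i : ℝ) - p * x0 i| ≤ C) → ∀ k : Fin D → ℤ,
        ((∀ i, |(k i : ℝ)| ≤ δ * (p + 1)) →
          (fun j => ((z0 j + ∑ i, k i * b i j : ℤ) : ℝ) / p) ∈ QX P) ∧
        ((∀ j, |((z0 j + ∑ i, k i * b i j : ℤ) : ℝ) / p - x0 j| < δ') →
          ∀ i, |(k i : ℝ)| ≤ δ * p)

/-! ### steepest descent -/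

section MD

variable {J : Type} [Fintype J] {V D : ℕ}

/-- linear forms -/
noncomputable def lf (B : J → (Fin V ⊕ Fin D) → ℝ) (j : J) (w : Fin V ⊕ Fin D → ℂ) : ℂ :=
  ∑ i, (B j i : ℂ) * w i

/-- the potential function -/
noncomputable def PF (B : J → (Fin V ⊕ Fin D) → ℝ) (φ : J → ℂ → ℂ) (a : Fin V → ℤ)
    (w : Fin V ⊕ Fin D → ℂ) : ℂ :=
  ∑ j, φ j (lf B j w) +
    ∑ v, (Real.pi * I * a v * w (.inl v) ^ 2 - 2 * Real.pi * I * w (.inl v))

/-- critical points of the potential function -/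
structure CritP (B : J → (Fin V ⊕ Fin D) → ℝ) (φ : J → ℂ → ℂ) (a : Fin V → ℤ)
    (w : Fin V ⊕ Fin D → ℂ) : Prop where
  y : ∀ v, ∑ j, (B j (.inl v) : ℂ) * deriv (φ j) (lf B j w) +
    2 * Real.pi * I * (a v * w (.inl v) - 1) = 0
  x : ∀ i, ∑ j, (B j (.inr i) : ℂ) * deriv (φ j) (lf B j w) = 0

/-- the unperturbed real function -/
structure MDok (r : ℝ) (B : J → (Fin V ⊕ Fin D) → ℝ) (φ0 : J → ℂ → ℂ) : Prop where
  r_pos : 0 < r
  diff : ∀ j, DifferentiableOn ℂ (φ0 j) (Metric.ball 0 r)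
  real : ∀ j, ∀ x : ℝ, |x| < r → (φ0 j x).im = 0
  crit : ∀ i, ∑ j, B j i * (deriv (φ0 j) 0).re = 0
  neg : ∀ ξ : Fin V ⊕ Fin D → ℝ, ξ ≠ 0 →
    ∑ j, (deriv (deriv (φ0 j)) 0).re * (∑ i, B j i * ξ i) ^ 2 < 0

/-- the perturbed functions -/
structure MDadm (r ε : ℝ) (B : J → (Fin V ⊕ Fin D) → ℝ) (φ0 φ : J → ℂ → ℂ) : Prop where
  diff : ∀ j, DifferentiableOn ℂ (φ j) (Metric.ball 0 r)
  close : ∀ j, ∀ z ∈ Metric.ball (0 : ℂ) r, ‖φ j z - φ0 j z‖ ≤ ε
  even : ∀ v : Fin V, ∀ w : Fin V ⊕ Fin D → ℂ, (∀ j, ‖lf B j w‖ < r) →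
    (∀ j, ‖lf B j (Function.update w (.inl v) (-w (.inl v)))‖ < r) →
    ∑ j, φ j (lf B j (Function.update w (.inl v) (-w (.inl v)))) = ∑ j, φ j (lf B j w)

/-- the sum over the lattice and integral over the lines `Im y = - hg a` -/
noncomputable def MDS (N m : ℕ) (B : J → (Fin V ⊕ Fin D) → ℝ) (φ : J → ℂ → ℂ) (a : Fin V → ℤ) : ℂ :=
  ∑ k ∈ Fintype.piFinset (fun _ : Fin D => Finset.Icc (-(m : ℤ)) m),
    ∫ s in Set.Icc (fun _ : Fin V => -(((m : ℝ) + 1 / 2) / N)) (fun _ => ((m : ℝ) + 1 / 2) / N),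
      (∏ v, omz N (a v) (pt (s v) (hg (a v)))) *
        Complex.exp (N * ∑ j, φ j (lf B j (Sum.elim (fun v => pt (s v) (hg (a v)))
          fun i => ((k i : ℝ) / N : ℝ))))

end MD

/-! ### the eleven linear forms at each vertex -/

/-- the value of the linear forms; `c` in units of `π` -/
noncomputable def fM (b : Bool) (c : Cor ℝ) : Fin 11 → ℝ :=
  ![1 / 2 + (if b = true then c.n else 1 - c.n), 1 / 2 + (if b = true then c.n else 1 - c.n),
    if b = true then c.n else 1 - c.n, if c.n + c.uL = 1 then 1 / 2 else c.n + c.uL,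
    if c.n + c.uR = 1 then 1 / 2 else c.n + c.uR, if c.n = c.uB then 1 / 2 else c.n - c.uB,
    if c.n = c.uT then 1 / 2 else c.n - c.uT,
    if c.uL = 0 then 1 / 2 else c.uL, if c.uR = 0 then 1 / 2 else c.uR,
    if c.uB = 0 then 1 / 2 else c.uB, if c.uT = 0 then 1 / 2 else c.uT]

/-- the coefficients of the potential function -/
noncomputable def fS (c : Cor ℝ) : Fin 11 → ℝ :=
  ![1, 1, -2, if c.n + c.uL = 1 then 0 else 1, if c.n + c.uR = 1 then 0 else 1,
    if c.n = c.uB then 0 else -1, if c.n = c.uT then 0 else -1,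
    if c.uL = 0 then 0 else -1, if c.uR = 0 then 0 else -1,
    if c.uB = 0 then 0 else -1, if c.uT = 0 then 0 else -1]

/-- the linear parts in the angles -/
noncomputable def fL (b : Bool) (d : Cor ℝ) : Fin 11 → ℝ :=
  ![if b = true then d.n else -d.n, if b = true then d.n else -d.n, if b = true then d.n else -d.n,
    d.n + d.uL, d.n + d.uR, d.n - d.uB, d.n - d.uT, d.uL, d.uR, d.uB, d.uT]

/-- the coefficients of `y` -/
noncomputable def fY : Fin 11 → ℝ := ![1, -1, 0, 0, 0, 0, 0, 0, 0, 0, 0]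

/-- the number of crossings or half twists used, for the vertex or turned vertex -/
noncomputable def nb (N : ℕ) (b : Bool) (c : Cor ℕ) : ℕ := if b = true then c.n else N - 1 - c.n

/-- the values of the linear forms for integral angles; `c` in units of `π / (N - 1)` -/
noncomputable def fV (N : ℕ) (b : Bool) (c : Cor ℝ) : Fin 11 → ℝ :=
  ![1 / 2 + (if b = true then c.n else N - 1 - c.n) / N,
    1 / 2 + (if b = true then c.n else N - 1 - c.n) / N,
    ((if b = true then c.n else N - 1 - c.n) + 1 / 2) / N, (c.n + c.uL + 1 / 2) / N,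
    (c.n + c.uR + 1 / 2) / N, (c.n - c.uB + 1 / 2) / N, (c.n - c.uT + 1 / 2) / N,
    (c.uL + 1 / 2) / N, (c.uR + 1 / 2) / N, (c.uB + 1 / 2) / N, (c.uT + 1 / 2) / N]

section Forms

variable {V D : ℕ}

/-- the matrix of the linear forms, `d i v` the change of the angles at `v` in direction `i` -/
noncomputable def fB (bs : Fin V → Bool) (d : Fin D → Fin V → Cor ℝ) :
    (Fin V × Fin 11) → (Fin V ⊕ Fin D) → ℝ
  | (v, f), .inl v' => if v' = v then fY f else 0
  | (v, f), .inr i => fL (bs v) (d i v) f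

/-- the limit functions -/
noncomputable def f0 (bs : Fin V → Bool) (c : Fin V → Cor ℝ) (j : Fin V × Fin 11) (z : ℂ) : ℂ :=
  fS (c j.1) j.2 * Pool.Agent.Helper48.QD.LI (fM (bs j.1) (c j.1) j.2 + z)

/-- the functions for `N`; `s` are the shifts -/
noncomputable def fN (N : ℕ) (bs : Fin V → Bool) (c : Fin V → Cor ℝ) (s : Fin V × Fin 11 → ℝ)
    (j : Fin V × Fin 11) (z : ℂ) : ℂ :=
  fS (c j.1) j.2 * (Pool.Agent.Helper48.QD.LD N (fM (bs j.1) (c j.1) j.2 + z + s j) / N)

/-- the constant factor -/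
noncomputable def fK (N : ℕ) (c : Fin V → Cor ℝ) : ℝ :=
  ∏ v, (1 / N * Real.sqrt N ^ ((∑ f : Fin 11, if 3 ≤ (f : ℕ) then fS (c v) f else 0) +
    2 * ((if (c v).n + (c v).uL = 1 then 1 else 0) +
      (if (c v).n + (c v).uR = 1 then 1 else 0))) : ℝ)

/-- the conditions at a vertex, in units of `π` -/
structure InnC (b : Bool) (c : Cor ℝ) : Prop where
  L0 : 0 ≤ c.uL
  R0 : 0 ≤ c.uR
  B0 : 0 ≤ c.uB
  T0 : 0 ≤ c.uT
  sum : c.uL + c.uR + c.uB + c.uT = 1
  Bn : c.uB ≤ c.n
  Tn : c.uT ≤ c.n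
  Ln : c.uL + c.n ≤ 1
  Rn : c.uR + c.n ≤ 1
  dir : if b = true then 0 < c.n ∧ 2 * c.n < 1 else 1 < 2 * c.n ∧ c.n < 1

/-- the equalities for `c` (in units of `π`) hold also for `c'` (in units of `π / p`) -/
structure Tight {K : Type} [Add K] [Zero K] (p : K) (c : Cor ℝ) (c' : Cor K) : Prop where
  L0 : c.uL = 0 → c'.uL = 0
  R0 : c.uR = 0 → c'.uR = 0
  B0 : c.uB = 0 → c'.uB = 0
  T0 : c.uT = 0 → c'.uT = 0
  L1 : c.n + c.uL = 1 → c'.n + c'.uL = p
  R1 : c.n + c.uR = 1 → c'.n + c'.uR = p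
  B1 : c.n = c.uB → c'.n = c'.uB
  T1 : c.n = c.uT → c'.n = c'.uT

end Forms

/-! ### the data of a pattern -/

section Data

variable {α : Type} (P : List (Item α))

/-- the number of vertices -/
def vn : ℕ := (labels P).length

/-- the directions -/
def bf {V : ℕ} (bs : List Bool) (v : Fin V) : Bool := bs.getD v true

/-- the numbers of crossings -/
def af {V : ℕ} (ls : List (Bool × ℤ)) (v : Fin V) : ℤ := (ls.getD v (true, 0)).2

/-- the angles in units of `π` -/
noncomputable def cu (x : Fin (np P) → ℝ) (v : Fin (vn P)) : Cor ℝ := cf 1 P (List.ofFn x) v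

/-- the change of the angles in the directions of the lattice basis -/
noncomputable def dd {D : ℕ} (b : Fin D → Fin (np P) → ℤ) (i : Fin D) (v : Fin (vn P)) : Cor ℝ :=
  mapC (Int.cast : ℤ → ℝ) (cf 0 P (List.ofFn (b i)) v)

/-- the matrix of the linear forms of a pattern -/
noncomputable def mB {D : ℕ} (bs : List Bool) (b : Fin D → Fin (np P) → ℤ) :
    (Fin (vn P) × Fin 11) → (Fin (vn P) ⊕ Fin D) → ℝ := fB (bf bs) (dd P b)

/-- the data at the vertices for a point `w` -/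
noncomputable def vx {D : ℕ} (ls : List (Bool × ℤ)) (x0 : Fin (np P) → ℝ)
    (b : Fin D → Fin (np P) → ℤ) (w : Fin (vn P) ⊕ Fin D → ℂ) (v : Fin (vn P)) : Vx where
  b := (ls.getD v (true, 0)).1
  a := (ls.getD v (true, 0)).2
  y := w (.inl v)
  c := cf (Real.pi : ℂ) P (List.ofFn fun j => Real.pi * (x0 j + ∑ i, w (.inr i) * b i j)) v
  c0 := (cr P x0).getD v c00

end Data

end Pool.Agent.Helper9.TW
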