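import Pool.Agent.Helper9.TF.Defs
import Pool.Agent.Helper5.TB.BW
import Pool.Agent.Helper9.FA.ZDefs

/-!
# Links with many crossings in each twist region: definitions

Only definitions.
-/

namespace Pool.Agent.Helper9.TW

open Pool.Agent.Helper9.Kashaev Pool.Agent.Helper9.FA
open Pool.Agent.Helper9.TF (gamy gamt)

/-! ### links -/

/-- Change of the labels of a pattern. -/
def relabel {α β : Type} (f : α → β) : Item α → Item β
  | .cup k => .cup k
  | .cap k => .cap k
  | .box k a => .box k (f a)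

/-- A twist region with `|a|` crossings, at the strands number `k`, `k + 1`: vertical (a power of a
braid generator) if the label is `(true, a)`, and horizontal (turned by a quarter turn) if the
label is `(false, a)`. -/
def region (k : ℕ) (l : Bool × ℤ) : Diagram :=
  if l.1 then twists k l.2 else [(k, .cup)] ++ twists (k + 1) l.2 ++ [(k + 2, .cap)]

/-- The link of a pattern, cut open at one point: every vertex is replaced by a twist region. -/
def twLink (P : List (Item (Bool × ℤ))) : Diagram := P.flatMap (Item.diagram region)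

/-- `Lab P L u`: `u` is a labelling by real numbers of the strands at the bottom of `P`, obtained from
`0` at the top of `P` such that the labels are constant along the strands and at each vertex;
`L` is the list of the labels at the maxima. -/
inductive Lab {α : Type} : List (Item α) → List ℝ → List ℝ → Prop
  | nil : Lab [] [] [0]
  | cup {P : List (Item α)} {L l r : List ℝ} {s : ℝ} (h : Lab P L (l ++ s :: s :: r)) :
      Lab (.cup l.length :: P) L (l ++ r)
  | cap {P : List (Item α)} {L l r : List ℝ} {s : ℝ} (h : Lab P L (l ++ r)) :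
      Lab (.cap l.length :: P) (s :: L) (l ++ s :: s :: r)
  | box {P : List (Item α)} {L l r : List ℝ} {s : ℝ} {a : α} (h : Lab P L (l ++ s :: s :: r)) :
      Lab (.box l.length a :: P) L (l ++ s :: s :: r)

/-- The pattern is connected: all labellings are trivial. -/
def Conn {α : Type} (P : List (Item α)) : Prop := ∀ L u, Lab P L u → ∀ s ∈ L, s = 0

/-! ### angle assignments for all directions of the twist regions -/

/-- The conditions at a vertex, for both directions. -/
structure OkX (c : Cor ℝ) : Prop where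
  L0 : 0 ≤ c.uL
  R0 : 0 ≤ c.uR
  B0 : 0 ≤ c.uB
  T0 : 0 ≤ c.uT
  sum : c.uL + c.uR + c.uB + c.uT = Real.pi
  Bn : c.uB ≤ c.n
  Tn : c.uT ≤ c.n
  Ln : c.uL + c.n ≤ Real.pi
  Rn : c.uR + c.n ≤ Real.pi

/-- `AngX P d cs`: the list `cs` is an angle assignment for the vertices of `P` with the flow `d` at
the bottom of `P`, as `Ang`, but without the condition `n ≤ π / 2`. -/
inductive AngX {α : Type} : List (Item α) → List ℝ → List (Cor ℝ) → Prop
  | nil : AngX [] [0, 0] []
  | cup {P : List (Item α)} {l r : List ℝ} {a b : ℝ} {cs : List (Cor ℝ)}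
      (h : AngX P (l ++ a :: Real.pi :: b :: r) cs) :
      AngX (.cup l.length :: P) (l ++ (a + b) :: r) cs
  | cap {P : List (Item α)} {l r : List ℝ} {x a b : ℝ} {cs : List (Cor ℝ)}
      (h : AngX P (l ++ x :: r) cs) (ha : x ≤ a) (hb : x ≤ b) (hab : a + b = x + Real.pi) :
      AngX (.cap l.length :: P) (l ++ a :: 0 :: b :: r) cs
  | box {P : List (Item α)} {l r : List ℝ} {x y : ℝ} {e : α} {c : Cor ℝ} {cs : List (Cor ℝ)}
      (h : AngX P (l ++ x :: (Real.pi - c.uT) :: y :: r) cs) (hc : OkX c) :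
      AngX (.box l.length e :: P) (l ++ (x + c.uL) :: c.uB :: (y + c.uR) :: r) (c :: cs)

/-- The volume of the twelve ideal tetrahedra at a vertex, for the vertical direction if `n ≤ π / 2`
and for the horizontal direction if `n ≥ π / 2`. -/
noncomputable def corX (c : Cor ℝ) : ℝ :=
  2 * (2 * tet (min c.n (Real.pi - c.n)) (Real.pi / 2 - min c.n (Real.pi - c.n)) +
    tet c.uL (Real.pi - c.n - c.uL) + tet c.uR (Real.pi - c.n - c.uR) +
    tet c.uB (c.n - c.uB) + tet c.uT (c.n - c.uT))

/-- The total volume. -/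
noncomputable def volX (cs : List (Cor ℝ)) : ℝ := (cs.map corX).sum

/-- The angle `n` is not `0`, `π / 2` or `π`. -/
def Inner (c : Cor ℝ) : Prop := 0 < c.n ∧ c.n < Real.pi ∧ 2 * c.n ≠ Real.pi

/-- `cs` is a maximum of the volume over all angle assignments of the pattern and all directions of
the twist regions. -/
structure MaxX {α : Type} (P : List (Item α)) (cs : List (Cor ℝ)) : Prop where
  ang : AngX P [0, 0] cs
  max : ∀ ds, AngX P [0, 0] ds → volX ds ≤ volX cs

/-- The volume of the ideal tetrahedra at a vertex in direction `b` (`true` for vertical), without the four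
central tetrahedra if `n` is on the wrong side of `π / 2`. -/
noncomputable def cabs (b : Bool) (c : Cor ℝ) : ℝ :=
  2 * (2 * (if (b = true ∧ 2 * c.n ≤ Real.pi) ∨ (b = false ∧ Real.pi ≤ 2 * c.n) then
      tet (min c.n (Real.pi - c.n)) (Real.pi / 2 - min c.n (Real.pi - c.n)) else 0) +
    tet c.uL (Real.pi - c.n - c.uL) + tet c.uR (Real.pi - c.n - c.uR) +
    tet c.uB (c.n - c.uB) + tet c.uT (c.n - c.uT))

/-- The total volume for given directions. -/
noncomputable def vabs (bs : List Bool) (cs : List (Cor ℝ)) : ℝ := (List.zipWith cabs bs cs).sum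

/-- For the directions `bs`, the volume is maximal at `cs` and only there, and `cs` is on the right
side of `n = π / 2` at every vertex. -/
structure DomX {α : Type} (P : List (Item α)) (bs : List Bool) (cs : List (Cor ℝ)) : Prop where
  ang : AngX P [0, 0] cs
  dir : List.Forall₂ (fun (b : Bool) (c : Cor ℝ) =>
    if b = true then 2 * c.n < Real.pi else Real.pi < 2 * c.n) bs cs
  dom : ∀ ds, AngX P [0, 0] ds → ds ≠ cs → vabs bs ds < vabs bs cs

/-- The directions of the labels are `bs`, and the numbers of crossings are at least `R`. -/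
def Dirs (R : ℕ) (ls : List (Bool × ℤ)) (bs : List Bool) : Prop :=
  ls.map Prod.fst = bs ∧ ∀ l ∈ ls, R ≤ l.2.natAbs

/-! ### the complex solution -/

/-- Complex angle assignments: the linear equations of `AngX`. -/
inductive AngC {α : Type} : List (Item α) → List ℂ → List (Cor ℂ) → Prop
  | nil : AngC [] [0, 0] []
  | cup {P : List (Item α)} {l r : List ℂ} {a b : ℂ} {cs : List (Cor ℂ)}
      (h : AngC P (l ++ a :: (Real.pi : ℂ) :: b :: r) cs) :
      AngC (.cup l.length :: P) (l ++ (a + b) :: r) cs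
  | cap {P : List (Item α)} {l r : List ℂ} {x a b : ℂ} {cs : List (Cor ℂ)}
      (h : AngC P (l ++ x :: r) cs) (hab : a + b = x + Real.pi) :
      AngC (.cap l.length :: P) (l ++ a :: 0 :: b :: r) cs
  | box {P : List (Item α)} {l r : List ℂ} {x y : ℂ} {e : α} {c : Cor ℂ} {cs : List (Cor ℂ)}
      (h : AngC P (l ++ x :: (Real.pi - c.uT) :: y :: r) cs)
      (hc : c.uL + c.uR + c.uB + c.uT = Real.pi) :
      AngC (.box l.length e :: P) (l ++ (x + c.uL) :: c.uB :: (y + c.uR) :: r) (c :: cs)

/-- `log (2 sin x)` -/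
noncomputable def ls (x : ℂ) : ℂ := Complex.log (2 * Complex.sin x)

/-- The data at a vertex: the direction `b` and the number `a` of crossings of the twist region, the
variable `y` of the twist region, the complex angles `c`, and the real angles `c0` of the
maximum. -/
structure Vx where
  b : Bool
  a : ℤ
  y : ℂ
  c : Cor ℂ
  c0 : Cor ℝ

namespace Vx

/-- The angle `n` or `π - n`, divided by `π`. -/
noncomputable def t (v : Vx) : ℂ := if v.b = true then v.c.n / Real.pi else 1 - v.c.n / Real.pi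

/-- The Dehn filling equation. -/
def Site (v : Vx) : Prop := 2 * Real.pi * Complex.I * (v.a * v.y - 1) + gamy v.y v.t = 0

/-- The derivative of the potential function in the direction `d - c0`. -/
noncomputable def dphi (v : Vx) (d : Cor ℝ) : ℂ :=
  (if v.b = true then 1 else -1) * gamt v.y v.t * (d.n - v.c0.n : ℝ) +
    ls (v.c.n + v.c.uL) * ((d.n - v.c0.n) + (d.uL - v.c0.uL) : ℝ) +
    ls (v.c.n + v.c.uR) * ((d.n - v.c0.n) + (d.uR - v.c0.uR) : ℝ) -
    ls (v.c.n - v.c.uB) * ((d.n - v.c0.n) - (d.uB - v.c0.uB) : ℝ) -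
    ls (v.c.n - v.c.uT) * ((d.n - v.c0.n) - (d.uT - v.c0.uT) : ℝ) -
    ls v.c.uL * (d.uL - v.c0.uL : ℝ) - ls v.c.uR * (d.uR - v.c0.uR : ℝ) -
    ls v.c.uB * (d.uB - v.c0.uB : ℝ) - ls v.c.uT * (d.uT - v.c0.uT : ℝ)

end Vx

/-- The shape of the ideal tetrahedron with the complex dihedral angles `α`, `β`, `γ`. -/
noncomputable def shp (α β γ : ℂ) : ℂ := Complex.exp (Complex.I * α) * Complex.sin β / Complex.sin γ

/-- The volume of two ideal tetrahedra. -/
noncomputable def tet2 (α β γ : ℂ) : ℝ :=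
  Pool.Agent.Helper5.TB.BW (shp α β γ) + Pool.Agent.Helper5.TB.BW (shp α γ β)

/-- The two ideal tetrahedra are positively oriented. -/
def Pos2 (α β γ : ℂ) : Prop := 0 < (shp α β γ).im ∧ 0 < (shp α γ β).im

namespace Vx

/-- The sum of the volumes of the twelve ideal tetrahedra at a vertex. -/
noncomputable def vol (v : Vx) : ℝ :=
  tet2 (Real.pi * v.t) (Real.pi / 2 - Real.pi * v.t - Real.pi * v.y) (Real.pi / 2 + Real.pi * v.y) +
    tet2 (Real.pi * v.t) (Real.pi / 2 - Real.pi * v.t + Real.pi * v.y)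
      (Real.pi / 2 - Real.pi * v.y) +
    tet2 v.c.uL (Real.pi - v.c.n - v.c.uL) v.c.n + tet2 v.c.uR (Real.pi - v.c.n - v.c.uR) v.c.n +
    tet2 v.c.uB (v.c.n - v.c.uB) (Real.pi - v.c.n) + tet2 v.c.uT (v.c.n - v.c.uT) (Real.pi - v.c.n)

/-- The twelve ideal tetrahedra at a vertex are positively oriented, except for those with an
angle equal to `0`. -/
structure Pos (v : Vx) : Prop where
  p1 : Pos2 (Real.pi * v.t) (Real.pi / 2 - Real.pi * v.t - Real.pi * v.y)
    (Real.pi / 2 + Real.pi * v.y)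
  p2 : Pos2 (Real.pi * v.t) (Real.pi / 2 - Real.pi * v.t + Real.pi * v.y)
    (Real.pi / 2 - Real.pi * v.y)
  pL : v.c.uL = 0 ∨ v.c.n + v.c.uL = Real.pi ∨ Pos2 v.c.uL (Real.pi - v.c.n - v.c.uL) v.c.n
  pR : v.c.uR = 0 ∨ v.c.n + v.c.uR = Real.pi ∨ Pos2 v.c.uR (Real.pi - v.c.n - v.c.uR) v.c.n
  pB : v.c.uB = 0 ∨ v.c.n = v.c.uB ∨ Pos2 v.c.uB (v.c.n - v.c.uB) (Real.pi - v.c.n)
  pT : v.c.uT = 0 ∨ v.c.n = v.c.uT ∨ Pos2 v.c.uT (v.c.n - v.c.uT) (Real.pi - v.c.n)

/-- The variables are close to those of the maximum, and angles of ideal tetrahedra which are `0` at the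
maximum are `0`. -/
structure Near (η : ℝ) (v : Vx) : Prop where
  y : ‖v.y‖ ≤ η
  n : ‖v.c.n - v.c0.n‖ ≤ η
  L : ‖v.c.uL - v.c0.uL‖ ≤ η
  R : ‖v.c.uR - v.c0.uR‖ ≤ η
  B : ‖v.c.uB - v.c0.uB‖ ≤ η
  T : ‖v.c.uT - v.c0.uT‖ ≤ η
  L0 : v.c0.uL = 0 → v.c.uL = 0
  R0 : v.c0.uR = 0 → v.c.uR = 0
  B0 : v.c0.uB = 0 → v.c.uB = 0
  T0 : v.c0.uT = 0 → v.c.uT = 0
  L1 : v.c0.n + v.c0.uL = Real.pi → v.c.n + v.c.uL = Real.pi
  R1 : v.c0.n + v.c0.uR = Real.pi → v.c.n + v.c.uR = Real.pi
  B1 : v.c0.n = v.c0.uB → v.c.n = v.c.uB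
  T1 : v.c0.n = v.c0.uT → v.c.n = v.c.uT

end Vx

/-- A solution of the equations for the link `twLink P` near the maximum `cs`. -/
structure Sol (η : ℝ) (P : List (Item (Bool × ℤ))) (cs : List (Cor ℝ)) (vs : List Vx) : Prop where
  lab : vs.map (fun v => (v.b, v.a)) = labels P
  base : vs.map Vx.c0 = cs
  ang : AngC P [0, 0] (vs.map Vx.c)
  near : ∀ v ∈ vs, v.Near η
  site : ∀ v ∈ vs, v.Site
  crit : ∀ ds, AngX P [0, 0] ds → (List.zipWith Vx.dphi vs ds).sum = 0
  pos : ∀ v ∈ vs, v.Pos

end Pool.Agent.Helper9.TW
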